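import Pool.Agent.H83.X.T3

/-!
Row XLM: limits of integrals (Theorem X).
-/

set_option autoImplicit false

open MeasureTheory ProbabilityTheory Filter Topology Finset

namespace Pool.Agent.H16.X

open Pool.Agent.H83.X

theorem pf_XLM : T_XLM := by
  intro Ω _ P _ J B t hmeas hbd hae η hη
  obtain ⟨K, hK⟩ : ∃ K : ℕ → Ω → ℝ, ∀ m ω, K m ω = max (J m ω - t) 0 := ⟨_, fun _ _ => rfl⟩
  have hKm : ∀ m, Measurable (K m) := by
    intro m
    have : K m = fun ω => max (J m ω - t) 0 := funext (hK m)
    rw [this]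
    exact ((hmeas m).sub_const t).max measurable_const
  have hK0 : ∀ m ω, 0 ≤ K m ω := fun m ω => by rw [hK]; exact le_max_right _ _
  have hKb : ∀ m ω, ‖K m ω‖ ≤ |B| + |t| := by
    intro m ω
    rw [Real.norm_of_nonneg (hK0 m ω), hK]
    refine max_le ?_ (by positivity)
    have h1 := (abs_le.mp (hbd m ω)).2
    have h2 := le_abs_self B
    have h3 := neg_abs_le t
    linarith
  have hlim : ∀ᵐ ω ∂P, Tendsto (fun m => K m ω) atTop (𝓝 0) := by
    filter_upwards [hae] with ω hω
    rw [Metric.tendsto_atTop]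
    intro e he
    obtain ⟨m₀, hm⟩ := hω (e / 2) (by linarith)
    refine ⟨m₀, fun m hmm => ?_⟩
    rw [Real.dist_eq, sub_zero, abs_of_nonneg (hK0 m ω), hK]
    have := hm m hmm
    exact lt_of_le_of_lt (max_le (by linarith) (by linarith) : max (J m ω - t) 0 ≤ e / 2) (by linarith)
  have hdom : Tendsto (fun m => ∫ ω, K m ω ∂P) atTop (𝓝 (∫ _, (0 : ℝ) ∂P)) :=
    tendsto_integral_of_dominated_convergence (fun _ => |B| + |t|)
      (fun m => (hKm m).aestronglyMeasurable) (integrable_const _)
      (fun m => Eventually.of_forall (hKb m)) hlim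
  rw [integral_zero] at hdom
  rw [Metric.tendsto_atTop] at hdom
  obtain ⟨m₀, hm⟩ := hdom η hη
  refine ⟨m₀, fun m hmm => ?_⟩
  have h1 := hm m hmm
  rw [Real.dist_eq, sub_zero] at h1
  have h2 := (abs_lt.mp h1).2
  have hJi : Integrable (J m) P :=
    Integrable.of_bound (hmeas m).aestronglyMeasurable B
      (Eventually.of_forall fun ω => hbd m ω)
  have hKi : Integrable (K m) P :=
    Integrable.of_bound (hKm m).aestronglyMeasurable (|B| + |t|) (Eventually.of_forall (hKb m))
  have h3 : ∫ ω, J m ω ∂P ≤ ∫ ω, (t + K m ω) ∂P := by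
    refine integral_mono hJi ((integrable_const t).add hKi) ?_
    intro ω
    have : J m ω - t ≤ K m ω := by rw [hK]; exact le_max_left _ _
    show J m ω ≤ t + K m ω
    linarith
  rw [integral_add (integrable_const t) hKi, integral_const, probReal_univ, one_smul] at h3
  linarith

end Pool.Agent.H16.X
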