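import Pool.Agent.H83.X.T3
import Pool.Agent.H35.V.VSX

/-!
Row XSX: the measure on the side of the numbers (Theorem X).
-/

set_option autoImplicit false

open MeasureTheory ProbabilityTheory Filter Topology Finset

namespace Pool.Agent.H16.X

open Pool.Agent.H83.X
open Pool.Agent.H83.V (vl fz)
open Pool.Agent.H28.MCL (ldB Aw)
open Pool.Agent.H67.AG (Av)
open Pool.Agent.H67.LF (ptX_nat ptX_zero fai_mono)
open Pool.Agent.H28.LF (lt SS ptS LX Xi shX lX shS SysX T_SHP)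

/-- the finite data of a point on which the integrand depends -/
def fdX (R M : ℕ) (ξ : Xi) : (Fin R → Bool) × (Fin M → Bool × Bool) :=
  (fun s => (ξ 0).2 (s : ℕ), fun i => (ξ ((i : ℤ) + 1)).1)

/-- extension of finitely many digits by zeros -/
def xtX {α : Type} (a : α) (M : ℕ) (b : Fin M → α) (s : ℕ) : α :=
  if h : s < M then b ⟨s, h⟩ else a

/-- the integrand in terms of the finite data -/
noncomputable def efX (z : Bool) (h : ℕ) (Φ : ℝ → ℝ) (c : ℝ) (R K : ℕ)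
    (d : (Fin R → Bool) × (Fin (K + h) → Bool × Bool)) : ℝ :=
  vR R (xtX false R d.1) * (Φ ((∑ l ∈ range K, (vl z (xtX (false, false) (K + h) d.2 l) : ℝ) *
    (vl z (xtX (false, false) (K + h) d.2 (l + h)) : ℝ)) / K) - c)

theorem cont_fdX (R M : ℕ) : Continuous (fdX R M) := by
  unfold fdX
  fun_prop

theorem vR_xtX (R : ℕ) (b : ℕ → Bool) : vR R (xtX false R fun s : Fin R => b s) = vR R b := by
  unfold vR
  congr 1
  refine Finset.sum_congr rfl fun s hs => ?_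
  unfold xtX
  rw [dif_pos (Finset.mem_range.mp hs)]

theorem gX_iter (z : Bool) (h l : ℕ) (ξ : Xi) : gX z h (shX^[l] ξ) =
    (vl z (ξ ((l : ℤ) + 1)).1 : ℝ) * (vl z (ξ (((l + h : ℕ) : ℤ) + 1)).1 : ℝ) := by
  unfold gX
  rw [Pool.Agent.H35.V.shX_iter, Pool.Agent.H35.V.shX_iter]
  have e1 : (1 : ℤ) + l = (l : ℤ) + 1 := by ring
  have e2 : (1 : ℤ) + h + l = ((l + h : ℕ) : ℤ) + 1 := by push_cast; ring
  rw [e1, e2]

theorem Av_gX (z : Bool) (h K : ℕ) (ξ : Xi) : Av shX 1 K (gX z h) ξ =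
    (∑ l ∈ range K, (vl z (ξ ((l : ℤ) + 1)).1 : ℝ) *
      (vl z (ξ (((l + h : ℕ) : ℤ) + 1)).1 : ℝ)) / K := by
  unfold Av
  congr 1
  refine Finset.sum_congr rfl fun l _ => ?_
  rw [one_mul, gX_iter]

theorem G_eq (z : Bool) (h : ℕ) (Φ : ℝ → ℝ) (c : ℝ) (R K : ℕ) (ξ : Xi) :
    vR R (ξ 0).2 * (Φ (Av shX 1 K (gX z h) ξ) - c) = efX z h Φ c R K (fdX R (K + h) ξ) := by
  rw [Av_gX]
  unfold efX fdX
  rw [vR_xtX]
  congr 3
  congr 1
  refine Finset.sum_congr rfl fun l hl => ?_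
  have hl' := Finset.mem_range.mp hl
  unfold xtX
  rw [dif_pos (by omega), dif_pos (by omega)]

theorem G_cont (z : Bool) (h : ℕ) (Φ : ℝ → ℝ) (c : ℝ) (R K : ℕ) :
    Continuous fun ξ : Xi => vR R (ξ 0).2 * (Φ (Av shX 1 K (gX z h) ξ) - c) := by
  have h1 : (fun ξ : Xi => vR R (ξ 0).2 * (Φ (Av shX 1 K (gX z h) ξ) - c)) =
      efX z h Φ c R K ∘ fdX R (K + h) := funext fun ξ => G_eq z h Φ c R K ξ
  rw [h1]
  exact continuous_of_discreteTopology.comp (cont_fdX R (K + h))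

theorem G_fin (z : Bool) (h : ℕ) (Φ : ℝ → ℝ) (c : ℝ) (R K : ℕ) :
    (Set.range fun ξ : Xi => vR R (ξ 0).2 * (Φ (Av shX 1 K (gX z h) ξ) - c)).Finite := by
  refine (Set.finite_range (efX z h Φ c R K)).subset ?_
  rintro _ ⟨ξ, rfl⟩
  exact ⟨fdX R (K + h) ξ, (G_eq z h Φ c R K ξ).symm⟩

theorem G_pt (z : Bool) (h : ℕ) (Φ : ℝ → ℝ) (c : ℝ) (R K : ℕ) (τ : ℕ → ℕ → Bool) (n : ℕ) :
    vR R (ptS (lX τ) n 0).2 * (Φ (Av shX 1 K (gX z h) (ptS (lX τ) n)) - c) =
      vR R (τ n) * (Φ (aH z h K n) - c) := by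
  rw [Av_gX, ptX_zero]
  unfold aH
  congr 3
  congr 1
  refine Finset.sum_congr rfl fun l _ => ?_
  have e1 : ((l : ℤ) + 1) = ((l + 1 : ℕ) : ℤ) := by push_cast; ring
  have e2 : (((l + h : ℕ) : ℤ) + 1) = ((l + h + 1 : ℕ) : ℤ) := by push_cast; ring
  rw [e1, e2, ptX_nat, ptX_nat]
  unfold fz
  have e3 : n + (l + 1) = n + l + 1 := by ring
  have e4 : n + (l + h + 1) = n + l + 1 + h := by ring
  rw [e3, e4, Int.cast_mul]

theorem pf_XSX (h1 : Pool.Agent.H28.LF.T_SHP) (h2 : T_XLI) (h3 : Pool.Agent.H28.MCL.T_LDB) :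
    T_XSX := by
  intro z h Φ c η₀ R U x y τ _ hA hτ hbig
  have hμ := (h3 U x y hA).1
  obtain ⟨P, hP, hinv, hclo, hcls⟩ := h1 LX (ldB U x y) (lX τ) hμ
  refine ⟨P, ⟨hP, hinv, ?_, ?_⟩, hclo, ?_⟩
  · have key : ∀ s : ℕ, P {ξ : Xi | (ξ 0).2 s ≠ (ξ 1).2 s} = 0 := by
      intro s
      have hc : IsClopen {ξ : Xi | (ξ 0).2 s ≠ (ξ 1).2 s} := by
        have h0 : Continuous fun ξ : Xi => ((ξ 0).2 s, (ξ 1).2 s) := by fun_prop
        have h1 : IsClopen {z : Bool × Bool | z.1 ≠ z.2} := isClopen_discrete _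
        exact h1.preimage h0
      have h2 := hclo _ hc
      have h3 : {n | ptS (lX τ) n ∈ {ξ : Xi | (ξ 0).2 s ≠ (ξ 1).2 s}} ⊆
          {n | τ n ≠ τ (n + 1)} := by
        intro n hn e
        apply hn
        have e1 : (ptS (lX τ) n 0).2 = τ n := by rw [ptX_zero]
        have e2 : (ptS (lX τ) n 1).2 = τ (n + 1) := by
          have := ptX_nat τ n 1
          rw [Nat.cast_one] at this
          rw [this]
        rw [e1, e2, e]
      have h4 := fai_mono hμ h3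
      rw [hτ] at h4
      have h5 : P.real {ξ : Xi | (ξ 0).2 s ≠ (ξ 1).2 s} = 0 := by
        refine le_antisymm ?_ measureReal_nonneg
        rw [h2]; exact h4
      exact (measureReal_eq_zero_iff (measure_ne_top _ _)).1 h5
    have h6 : ∀ᵐ ξ ∂P, ∀ s : ℕ, ¬ (ξ 0).2 s ≠ (ξ 1).2 s := by
      rw [ae_all_iff]
      intro s
      exact measure_eq_zero_iff_ae_notMem.1 (key s)
    filter_upwards [h6] with ξ hξ
    funext s
    exact not_not.1 (hξ s)
  · intro K _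
    exact measureReal_nonneg
  · intro K hK
    have e := h2 U x y τ P hA hP hclo _ (G_cont z h Φ c R K) (G_fin z h Φ c R K)
    rw [← e]
    refine le_trans (hbig K hK) (le_of_eq ?_)
    congr 1
    funext n
    exact (G_pt z h Φ c R K τ n).symm

end Pool.Agent.H16.X
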