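import Pool.Agent.H83.X.T3
import Pool.Agent.H67.V.VWN

/-!
Row XWN: disjoint long windows on which the statement fails (Theorem X).
-/

set_option autoImplicit false

open MeasureTheory ProbabilityTheory Filter Topology Finset

namespace Pool.Agent.H16.X

open Pool.Agent.H83.X

open Classical in
/-- XWN: disjoint long windows on which the statement fails. -/
theorem pf_XWN : T_XWN := by
  intro z h Φ δ hn
  unfold CoreX at hn
  push Not at hn
  obtain ⟨ε, ρ, hε, hρ, hn⟩ := hn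
  obtain ⟨f, hf⟩ : ∃ f : ℕ → ℕ → ℝ, ∀ K N, f K N = if cU Φ δ + ε < mH z h Φ K N then (1 : ℝ) else 0 :=
    ⟨_, fun _ _ => rfl⟩
  have hsum : ∀ K x y : ℕ, ∑ N ∈ (Icc x y).filter (fun N => cU Φ δ + ε < mH z h Φ K N),
      (1 : ℝ) / N = ∑ N ∈ Icc x y, f K N / N := by
    intro K x y
    rw [Finset.sum_filter]
    refine Finset.sum_congr rfl fun n _ => ?_
    rw [hf]
    split_ifs <;> simp
  have hf0 : ∀ K n, 0 ≤ f K n := by
    intro K n
    rw [hf]
    split_ifs <;> norm_num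
  have hf1 : ∀ K n, f K n ≤ 1 := by
    intro K n
    rw [hf]
    split_ifs <;> norm_num
  have st : ∀ j B : ℕ, ∃ H x y : ℕ, j < H ∧ 0 < x ∧ x ≤ y ∧ B < x ∧
      (j : ℝ) * H ≤ Real.log ((y : ℝ) / x) ∧
      9 / 10 * ρ * Real.log ((y : ℝ) / x) ≤ ∑ n ∈ Icc x y, f (j + 1) n / n := by
    intro j B
    refine Pool.Agent.H67.V.win_step (fun _ n => f (j + 1) n) (fun _ n => hf0 _ n)
      (fun _ n => hf1 _ n) ρ hρ ?_ j B
    intro K₀
    refine ⟨K₀, le_rfl, fun C => ?_⟩
    obtain ⟨x, y, h3, h4, h5⟩ := hn (j + 1) C (Nat.succ_pos j)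
    refine ⟨x, y, h3, h4, ?_⟩
    rw [hsum] at h5
    exact h5
  choose H x y h1 h2 h3 h4 h5 h6 using st
  let Y : ℕ → ℕ := fun j => Nat.rec (y 0 0) (fun k r => y (k + 1) r) j
  let b : ℕ → ℕ := fun j => Nat.rec 0 (fun k _ => Y k) j
  have hY : ∀ j, Y j = y j (b j) := by
    intro j
    cases j with
    | zero => rfl
    | succ k => rfl
  refine ⟨ε, 9 / 10 * ρ, fun j => x j (b j), fun j => y j (b j), hε, by positivity,
    fun j => ⟨h2 _ _, h3 _ _, ?_⟩, fun j => ?_, fun j => ?_⟩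
  · have : b (j + 1) = y j (b j) := by
      rw [← hY j]
    show y j (b j) < x (j + 1) (b (j + 1))
    rw [this]
    exact h4 _ _
  · refine le_trans ?_ (h5 j (b j))
    have h7 : ((j : ℝ) + 1) ≤ H j (b j) := by exact_mod_cast h1 j (b j)
    exact mul_le_mul_of_nonneg_left h7 (Nat.cast_nonneg j)
  · rw [hsum]
    exact h6 _ _

end Pool.Agent.H16.X
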