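import Pool.Agent.H83.X.T3

/-!
Row XWS: the weight of the scales which do not decouple (Theorem X).
-/

set_option autoImplicit false

open MeasureTheory ProbabilityTheory Filter Topology Finset

namespace Pool.Agent.H16.X

open Pool.Agent.H83.X

theorem pf_XWS : T_XWS := by
  classical
  intro Ω _ P _ D M wt ρ hD hwt hae
  have hind : ∀ m, ∫ ω, (D m)ᶜ.indicator (fun _ => (1 : ℝ)) ω ∂P = P.real (D m)ᶜ := by
    intro m
    rw [integral_indicator (hD m).compl, setIntegral_const, smul_eq_mul, mul_one]
  have hint : ∀ m, Integrable ((D m)ᶜ.indicator (fun _ => (1 : ℝ))) P := fun m =>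
    (integrable_const 1).indicator (hD m).compl
  have h1 : ∑ m ∈ M, wt m * P.real (D m)ᶜ =
      ∫ ω, ∑ m ∈ M, wt m * (D m)ᶜ.indicator (fun _ => (1 : ℝ)) ω ∂P := by
    rw [integral_finsetSum _ fun m _ => (hint m).const_mul (wt m)]
    refine Finset.sum_congr rfl fun m _ => ?_
    rw [integral_const_mul, hind]
  rw [h1]
  have h2 : ∫ ω, ∑ m ∈ M, wt m * (D m)ᶜ.indicator (fun _ => (1 : ℝ)) ω ∂P ≤ ∫ _, ρ ∂P := by
    refine integral_mono_ae (integrable_finsetSum _ fun m _ => (hint m).const_mul (wt m))
      (integrable_const ρ) ?_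
    filter_upwards [hae] with ω hω
    have h3 := hω (M.filter fun m => ω ∉ D m) (Finset.filter_subset _ _)
      (fun m hm => (Finset.mem_filter.mp hm).2)
    rw [Finset.sum_filter] at h3
    refine le_trans (le_of_eq ?_) h3
    refine Finset.sum_congr rfl fun m _ => ?_
    by_cases hm : ω ∈ D m
    · simp [hm]
    · simp [hm]
  rw [integral_const, probReal_univ, one_smul] at h2
  exact h2

end Pool.Agent.H16.X
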